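import Pool.Agent.U243.DB.Stm

set_option autoImplicit false

open MeasureTheory Set
open scoped ENNReal NNReal ContDiff

namespace Pool.Agent.U394.DB

open Pool.Agent.U243.DB

/-- scaling of integrals -/
lemma lintegral_scale {F : ℝ → ℝ≥0∞} (hF : Measurable F) {c a b : ℝ} (hc : 0 < c) :
    ∫⁻ t in Ioc a b, ENNReal.ofReal c * F (t * c) = ∫⁻ s in Ioc (a * c) (b * c), F s := by
  have h1 : ∫⁻ s in Ioc (a * c) (b * c), F s =
      ENNReal.ofReal |c| * ∫⁻ s in Ioc (a * c) (b * c), F s ∂(Measure.map (· * c) volume) := by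
    conv_lhs => rw [← Real.smul_map_volume_mul_right hc.ne']
    rw [Measure.restrict_smul, lintegral_smul_measure]
    rfl
  rw [h1, setLIntegral_map measurableSet_Ioc hF (measurable_mul_const c),
    lintegral_const_mul' _ _ ENNReal.ofReal_ne_top, abs_of_pos hc]
  congr 2
  congr 1
  ext t
  simp only [mem_Ioc, mem_preimage]
  constructor
  · rintro ⟨h2, h3⟩
    exact ⟨mul_lt_mul_of_pos_right h2 hc, mul_le_mul_of_nonneg_right h3 hc.le⟩
  · rintro ⟨h2, h3⟩
    exact ⟨lt_of_mul_lt_mul_right h2 hc.le, le_of_mul_le_mul_right h3 hc⟩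

/-- (DYAD) -/
theorem t_DYAD : S_DYAD := by
  intro F a hF ha
  have hm : ∀ m : ℕ, Measurable fun t : ℝ => ENNReal.ofReal ((1 / 2 : ℝ) ^ m) * F (t * (1 / 2 : ℝ) ^ m) :=
    fun m => (hF.comp (measurable_mul_const _)).const_mul _
  rw [lintegral_tsum fun m => (hm m).aemeasurable]
  have h1 : ∀ m : ℕ, ∫⁻ t in Ioc (a / 2) a, ENNReal.ofReal ((1 / 2 : ℝ) ^ m) * F (t * (1 / 2 : ℝ) ^ m) =
      ∫⁻ s in Ioc (a * (1 / 2 : ℝ) ^ (m + 1)) (a * (1 / 2 : ℝ) ^ m), F s := by
    intro m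
    rw [lintegral_scale hF (by positivity)]
    congr 3
    rw [pow_succ]
    ring
  rw [tsum_congr h1]
  have hanti : Antitone fun m : ℕ => a * (1 / 2 : ℝ) ^ m := by
    intro m n hmn
    exact mul_le_mul_of_nonneg_left (pow_le_pow_of_le_one (by norm_num) (by norm_num) hmn) ha.le
  have hdisj : Pairwise (Function.onFun Disjoint fun m : ℕ =>
      Ioc (a * (1 / 2 : ℝ) ^ (m + 1)) (a * (1 / 2 : ℝ) ^ m)) :=
    hanti.pairwise_disjoint_on_Ioc_succ
  rw [← lintegral_iUnion (fun m => measurableSet_Ioc) hdisj]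
  congr 2
  ext s
  simp only [mem_iUnion, mem_Ioc]
  constructor
  · rintro ⟨m, h2, h3⟩
    refine ⟨(by positivity : (0 : ℝ) ≤ a * (1 / 2 : ℝ) ^ (m + 1)).trans_lt h2, h3.trans ?_⟩
    have := hanti (Nat.zero_le m)
    simpa using this
  · rintro ⟨h2, h3⟩
    obtain ⟨n, h4, h5⟩ := exists_nat_pow_near_of_lt_one (x := s / a) (y := (1 / 2 : ℝ))
      (by positivity) ((div_le_one ha).2 h3) (by norm_num) (by norm_num)
    refine ⟨n, ?_, ?_⟩
    · rw [lt_div_iff₀ ha] at h4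
      linarith
    · rw [div_le_iff₀ ha] at h5
      linarith

end Pool.Agent.U394.DB
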