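import Pool.Agent.U243.DB.Stm

set_option autoImplicit false

open MeasureTheory Set
open scoped ENNReal NNReal ContDiff

namespace Pool.Agent.U394.DB

open Pool.Agent.U243.DB

/-- (EXRAD) -/
theorem t_EXRAD : S_EXRAD := by
  set g : ℂ → ℝ := fun z => expNegInvGlue (1 - ‖z‖ ^ 2) with hg
  have hgs : ContDiff ℝ ∞ g := by
    have h1 : ContDiff ℝ ∞ fun z : ℂ => (1 : ℝ) - ‖z‖ ^ 2 :=
      contDiff_const.sub (contDiff_norm_sq ℝ)
    exact expNegInvGlue.contDiff.comp h1
  have hg0 : ∀ z, 1 ≤ ‖z‖ → g z = 0 := by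
    intro z hz
    refine expNegInvGlue.zero_of_nonpos ?_
    nlinarith
  have hgc : HasCompactSupport g := by
    refine HasCompactSupport.intro (isCompact_closedBall (0 : ℂ) 1) fun z hz => hg0 z ?_
    rw [Metric.mem_closedBall, dist_zero_right, not_le] at hz
    exact hz.le
  have hgnn : 0 ≤ g := fun z => expNegInvGlue.nonneg _
  have hpos : 0 < ∫ z, g z := by
    refine hgs.continuous.integral_pos_of_hasCompactSupport_nonneg_nonzero hgc hgnn (x := 0) ?_
    exact (expNegInvGlue.pos_of_pos (by simp)).ne'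
  refine ⟨fun z => (∫ z, g z)⁻¹ * g z, ⟨contDiff_const.mul hgs, hgc.mul_left, ?_, ?_⟩, ?_, ?_⟩
  · intro z
    simp [hg]
  · rw [integral_const_mul, inv_mul_cancel₀ hpos.ne']
  · intro z hz
    simp only [hg0 z hz, mul_zero]
  · intro a z ha
    simp [hg, ha]

end Pool.Agent.U394.DB
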