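import Pool.Agent.U243.DB.Stm

set_option autoImplicit false

open MeasureTheory Set
open scoped ENNReal NNReal ContDiff

namespace Pool.Agent.U394.DB

open Pool.Agent.U243.DB

lemma contDiff_density {η : ℂ → ℝ} (hη : IsMollifier η) {Ω : Set ℂ} (hΩ : MeasurableSet Ω)
    {s : ℝ} (hs : 0 < s) : ContDiff ℝ 1 (density η Ω s) := by
  have h1 : density η Ω s = MeasureTheory.convolution (Ω.indicator (fun _ => (1 : ℝ)))
      (fun z => s⁻¹ ^ 2 * η (s⁻¹ • z)) (ContinuousLinearMap.mul ℝ ℝ) volume := by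
    funext z
    unfold density
    rw [convolution_def, ← integral_indicator hΩ]
    congr 1
    funext w
    by_cases hw : w ∈ Ω
    · simp [indicator_of_mem hw]
    · simp [indicator_of_notMem hw]
  rw [h1]
  refine HasCompactSupport.contDiff_convolution_right _ ?_ ?_ ?_
  · exact (hη.compact.comp_smul (inv_ne_zero hs.ne')).mul_left
  · exact (locallyIntegrable_const (1 : ℝ)).indicator hΩ
  · exact contDiff_const.mul ((hη.smooth.of_le (by exact_mod_cast le_top)).comp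
      (contDiff_const_smul _))

/-- the `L¹` modulus of continuity of a differentiable function -/
lemma lintegral_sub_le {d : ℂ → ℝ} (hd : ContDiff ℝ 1 d) (h : ℂ) :
    ∫⁻ z, ‖d (z + h) - d z‖ₑ ≤ ‖h‖ₑ * ∫⁻ z, ‖fderiv ℝ d z‖ₑ := by
  have hfc : Continuous (fderiv ℝ d) := hd.continuous_fderiv (by norm_num)
  have hpt : ∀ z, ‖d (z + h) - d z‖ₑ ≤ ∫⁻ t in Ioc (0 : ℝ) 1, ‖h‖ₑ * ‖fderiv ℝ d (z + t • h)‖ₑ := by
    intro z
    have hder : ∀ t ∈ uIcc (0 : ℝ) 1, HasDerivAt (fun t : ℝ => d (z + t • h))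
        (fderiv ℝ d (z + t • h) h) t := by
      intro t _
      have h1 : HasFDerivAt d (fderiv ℝ d (z + t • h)) (z + t • h) :=
        (hd.differentiable (by norm_num) _).hasFDerivAt
      have h2 : HasDerivAt (fun t : ℝ => z + t • h) h t := by
        have := ((hasDerivAt_id t).smul_const h).const_add z
        simpa using this
      exact h1.comp_hasDerivAt t h2
    have hcont : Continuous fun t : ℝ => fderiv ℝ d (z + t • h) h := by
      have : Continuous fun t : ℝ => fderiv ℝ d (z + t • h) :=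
        hfc.comp (by fun_prop)
      exact this.clm_apply continuous_const
    have hint := intervalIntegral.integral_eq_sub_of_hasDerivAt hder
      (hcont.intervalIntegrable 0 1)
    simp only [one_smul, zero_smul, add_zero] at hint
    rw [← hint, intervalIntegral.integral_of_le zero_le_one]
    refine (enorm_integral_le_lintegral_enorm _).trans (lintegral_mono fun t => ?_)
    rw [mul_comm]
    exact ContinuousLinearMap.le_opENorm _ _
  have hm : Measurable (Function.uncurry fun (z : ℂ) (t : ℝ) => ‖h‖ₑ * ‖fderiv ℝ d (z + t • h)‖ₑ) := by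
    refine Measurable.const_mul ?_ _
    have : Continuous fun p : ℂ × ℝ => fderiv ℝ d (p.1 + p.2 • h) := hfc.comp (by fun_prop)
    exact this.enorm.measurable
  calc ∫⁻ z, ‖d (z + h) - d z‖ₑ
      ≤ ∫⁻ z, ∫⁻ t in Ioc (0 : ℝ) 1, ‖h‖ₑ * ‖fderiv ℝ d (z + t • h)‖ₑ := lintegral_mono hpt
    _ = ∫⁻ t in Ioc (0 : ℝ) 1, ∫⁻ z, ‖h‖ₑ * ‖fderiv ℝ d (z + t • h)‖ₑ :=
        lintegral_lintegral_swap hm.aemeasurable
    _ = ∫⁻ t in Ioc (0 : ℝ) 1, ‖h‖ₑ * ∫⁻ z, ‖fderiv ℝ d z‖ₑ := by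
        refine lintegral_congr fun t => ?_
        rw [lintegral_const_mul' _ _ (by simp),
          lintegral_add_right_eq_self (fun z => ‖fderiv ℝ d z‖ₑ) (t • h)]
    _ = ‖h‖ₑ * ∫⁻ z, ‖fderiv ℝ d z‖ₑ := by
        rw [lintegral_const, Measure.restrict_apply MeasurableSet.univ, univ_inter, Real.volume_Ioc]
        simp

/-- (MODUL) -/
theorem t_MODUL : S_MODUL := by
  intro η Ω h s hη hΩ hs
  have hdc : ContDiff ℝ 1 (density η Ω s) := contDiff_density hη hΩ hs
  have hmid : ∫⁻ z, ‖density η Ω s (z + h) - density η Ω s z‖ₑ ≤ ‖h‖ₑ * variation η Ω s :=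
    lintegral_sub_le hdc h
  have hdm : Measurable (density η Ω s) := hdc.continuous.measurable
  have hχm : Measurable (Ω.indicator (fun _ => (1 : ℝ))) := measurable_const.indicator hΩ
  set χ : ℂ → ℝ := Ω.indicator (fun _ => (1 : ℝ)) with hχ
  set d : ℂ → ℝ := density η Ω s with hd
  have hm1 : Measurable fun z => ‖χ (z + h) - d (z + h)‖ₑ :=
    ((hχm.sub hdm).comp (measurable_add_const h)).enorm
  have hm2 : Measurable fun z => ‖χ z - d z‖ₑ := (hχm.sub hdm).enorm
  have h1 : ∫⁻ z, ‖χ (z + h) - d (z + h)‖ₑ = ∫⁻ z, ‖χ z - d z‖ₑ :=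
    lintegral_add_right_eq_self (fun z => ‖χ z - d z‖ₑ) h
  calc modulus Ω h = ∫⁻ z, ‖χ (z + h) - χ z‖ₑ := rfl
    _ ≤ ∫⁻ z, (‖χ (z + h) - d (z + h)‖ₑ + (‖χ z - d z‖ₑ + ‖d (z + h) - d z‖ₑ)) := by
        refine lintegral_mono fun z => ?_
        have h2 : χ (z + h) - χ z =
            (χ (z + h) - d (z + h)) + (-(χ z - d z) + (d (z + h) - d z)) := by ring
        rw [h2]
        refine (enorm_add_le _ _).trans (add_le_add le_rfl ((enorm_add_le _ _).trans ?_))
        rw [enorm_neg]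
    _ = (∫⁻ z, ‖χ z - d z‖ₑ) + ((∫⁻ z, ‖χ z - d z‖ₑ) + ∫⁻ z, ‖d (z + h) - d z‖ₑ) := by
        rw [lintegral_add_left hm1, lintegral_add_left hm2, h1]
    _ ≤ 2 * (∫⁻ z, ‖χ z - d z‖ₑ) + ‖h‖ₑ * variation η Ω s := by
        rw [two_mul, add_assoc]
        gcongr

end Pool.Agent.U394.DB
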