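import Pool.Agent.U243.DB.Stm

set_option autoImplicit false

open MeasureTheory Set
open scoped ENNReal NNReal ContDiff

namespace Pool.Agent.U394.DB

open Pool.Agent.U243.DB

/-- polar coordinates for radial functions -/
lemma lintegral_radial (F : ℝ → ℝ≥0∞) (hF : Measurable F) :
    ∫⁻ h : ℂ, F ‖h‖ =
      (∫⁻ r in Ioi (0 : ℝ), ENNReal.ofReal r * F r) * ENNReal.ofReal (2 * Real.pi) := by
  rw [← Complex.lintegral_comp_polarCoord_symm]
  have ht : polarCoord.target = (Ioi (0 : ℝ)) ×ˢ (Ioo (-Real.pi) Real.pi) := rfl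
  have h1 : ∫⁻ p in polarCoord.target, ENNReal.ofReal p.1 • F ‖Complex.polarCoord.symm p‖ =
      ∫⁻ p in (Ioi (0 : ℝ)) ×ˢ (Ioo (-Real.pi) Real.pi),
        (ENNReal.ofReal p.1 * F p.1) * (fun _ : ℝ => (1 : ℝ≥0∞)) p.2 := by
    rw [ht]
    refine setLIntegral_congr_fun (measurableSet_Ioi.prod measurableSet_Ioo) fun p hp => ?_
    simp only [smul_eq_mul, mul_one]
    rw [Complex.norm_polarCoord_symm, abs_of_pos hp.1]
  rw [h1, Measure.volume_eq_prod, ← Measure.prod_restrict,
    lintegral_prod_mul (f := fun r => ENNReal.ofReal r * F r) (g := fun _ => (1 : ℝ≥0∞))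
      (by fun_prop) (by fun_prop)]
  congr 1
  rw [lintegral_const, one_mul, Measure.restrict_apply MeasurableSet.univ, univ_inter,
    Real.volume_Ioo]
  congr 1
  ring

lemma lintegral_tail {α s : ℝ} (hα : α < 1) (hs : 0 < s) :
    ∫⁻ r in Ioi s, ENNReal.ofReal (r ^ (α - 2)) =
      ENNReal.ofReal (1 / (1 - α)) * ENNReal.ofReal (s ^ (α - 1)) := by
  have h1 : IntegrableOn (fun r : ℝ => r ^ (α - 2)) (Ioi s) :=
    integrableOn_Ioi_rpow_of_lt (by linarith) hs
  rw [← ofReal_integral_eq_lintegral_ofReal h1, integral_Ioi_rpow_of_lt (by linarith) hs,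
    ← ENNReal.ofReal_mul (by apply div_nonneg <;> linarith)]
  · congr 1
    have h2 : α - 2 + 1 = α - 1 := by ring
    have h3 : α - 1 ≠ 0 := by linarith
    have h4 : 1 - α ≠ 0 := by linarith
    rw [h2]
    field_simp
    ring
  · refine (ae_restrict_iff' measurableSet_Ioi).2 (Filter.Eventually.of_forall fun r hr => ?_)
    exact Real.rpow_nonneg (hs.le.trans (le_of_lt hr)) _

lemma modulus_zero (Ω : Set ℂ) : modulus Ω 0 = 0 := by
  simp [modulus]

/-- (PERIM) -/
theorem t_PERIM : S_PERIM := by
  classical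
  intro Ω α W W' hΩ hα0 hα1 hW hW' hmod hI hI'
  -- the kernel
  set K : ℂ → ℂ → ℝ≥0∞ := fun z h =>
    if z ∈ Ω ∧ z + h ∉ Ω ∧ ‖h‖ < 1 then ENNReal.ofReal (‖h‖ ^ (α - 3)) else 0 with hK
  have hKm : Measurable (Function.uncurry K) := by
    have hset : MeasurableSet {p : ℂ × ℂ | p.1 ∈ Ω ∧ p.1 + p.2 ∉ Ω ∧ ‖p.2‖ < 1} := by
      have h1 : MeasurableSet {p : ℂ × ℂ | p.1 ∈ Ω} := measurable_fst hΩ
      have h2 : MeasurableSet {p : ℂ × ℂ | p.1 + p.2 ∉ Ω} :=
        (measurable_fst.add measurable_snd) hΩ.compl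
      have h3 : MeasurableSet {p : ℂ × ℂ | ‖p.2‖ < 1} :=
        measurableSet_lt measurable_snd.norm measurable_const
      exact h1.inter (h2.inter h3)
    have h : Function.uncurry K = fun p : ℂ × ℂ =>
        if p ∈ {p : ℂ × ℂ | p.1 ∈ Ω ∧ p.1 + p.2 ∉ Ω ∧ ‖p.2‖ < 1} then
          ENNReal.ofReal (‖p.2‖ ^ (α - 3)) else 0 := by
      funext p
      rfl
    rw [h]
    exact Measurable.ite hset ((measurable_snd.norm.pow_const _).ennreal_ofReal) measurable_const
  have step1 : fractionalPerimeter α Ω = ∫⁻ z, ∫⁻ h, K z h := by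
    unfold fractionalPerimeter
    rw [← lintegral_indicator hΩ]
    refine lintegral_congr fun z => ?_
    by_cases hz : z ∈ Ω
    · rw [indicator_of_mem hz, ← lintegral_indicator (hΩ.compl.inter measurableSet_ball),
        ← lintegral_add_left_eq_self _ z]
      refine lintegral_congr fun h => ?_
      have h5 : z - (z + h) = -h := by ring
      by_cases hh : z + h ∈ Ωᶜ ∩ Metric.ball z 1
      · rw [indicator_of_mem hh, h5, norm_neg]
        have h6 : ‖h‖ < 1 := by
          have := hh.2
          rw [Metric.mem_ball, dist_eq_norm] at this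
          simpa using this
        simp only [hK]
        rw [if_pos ⟨hz, hh.1, h6⟩]
      · rw [indicator_of_notMem hh]
        simp only [hK]
        rw [if_neg]
        rintro ⟨-, h7, h8⟩
        refine hh ⟨h7, ?_⟩
        rw [Metric.mem_ball, dist_eq_norm]
        simpa using h8
    · rw [indicator_of_notMem hz]
      have h9 : ∀ h, K z h = 0 := fun h => if_neg fun h10 => hz h10.1
      simp [h9]
  set G : ℝ → ℝ≥0∞ := fun r => (∫⁻ s in Ioo 0 r, W s) + ENNReal.ofReal r * W' r with hG
  have hG1 : Measurable fun r : ℝ => ∫⁻ s in Ioo 0 r, W s := by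
    refine Monotone.measurable fun a b hab => ?_
    exact lintegral_mono_set (Ioo_subset_Ioo_right hab)
  have hGm : Measurable G := hG1.add (ENNReal.measurable_ofReal.mul hW')
  set F : ℝ → ℝ≥0∞ := (Ioo (0 : ℝ) 1).indicator
    fun r => ENNReal.ofReal (r ^ (α - 3)) * G r with hF
  have hFm : Measurable F :=
    ((measurable_id.pow_const _).ennreal_ofReal.mul hGm).indicator measurableSet_Ioo
  have step2 : ∫⁻ z, ∫⁻ h, K z h ≤ ∫⁻ h : ℂ, F ‖h‖ := by
    rw [lintegral_lintegral_swap hKm.aemeasurable]
    refine lintegral_mono fun h => ?_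
    by_cases h0 : h = 0
    · have h11 : ∀ z, K z h = 0 := by
        intro z
        refine if_neg ?_
        rintro ⟨h12, h13, -⟩
        exact h13 (by rw [h0, add_zero]; exact h12)
      simp [h11]
    · by_cases h1 : ‖h‖ < 1
      · have hpos : 0 < ‖h‖ := norm_pos_iff.2 h0
        have h14 : ∀ z, K z h ≤ ENNReal.ofReal (‖h‖ ^ (α - 3)) *
            ‖Ω.indicator (fun _ => (1 : ℝ)) (z + h) - Ω.indicator (fun _ => (1 : ℝ)) z‖ₑ := by
          intro z
          by_cases h15 : z ∈ Ω ∧ z + h ∉ Ω ∧ ‖h‖ < 1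
          · simp only [hK]
            rw [if_pos h15, indicator_of_notMem h15.2.1, indicator_of_mem h15.1]
            simp
          · simp only [hK]
            rw [if_neg h15]
            exact zero_le
        calc ∫⁻ z, K z h ≤ ∫⁻ z, ENNReal.ofReal (‖h‖ ^ (α - 3)) *
            ‖Ω.indicator (fun _ => (1 : ℝ)) (z + h) - Ω.indicator (fun _ => (1 : ℝ)) z‖ₑ :=
              lintegral_mono h14
          _ = ENNReal.ofReal (‖h‖ ^ (α - 3)) * modulus Ω h := by
              rw [lintegral_const_mul' _ _ ENNReal.ofReal_ne_top]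
              rfl
          _ ≤ ENNReal.ofReal (‖h‖ ^ (α - 3)) * G ‖h‖ := by
              gcongr
              exact hmod h hpos h1
          _ = F ‖h‖ := by
              rw [hF, indicator_of_mem (show ‖h‖ ∈ Ioo (0 : ℝ) 1 from ⟨hpos, h1⟩)]
      · have h16 : ∀ z, K z h = 0 := by
          intro z
          refine if_neg ?_
          rintro ⟨-, -, h17⟩
          exact h1 h17
        simp [h16]
  have step3 : ∫⁻ r in Ioi (0 : ℝ), ENNReal.ofReal r * F r ≤
      (∫⁻ r in Ioo (0 : ℝ) 1, ENNReal.ofReal (r ^ (α - 2)) * ∫⁻ s in Ioo 0 r, W s) +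
        ∫⁻ r in Ioo (0 : ℝ) 1, ENNReal.ofReal (r ^ (α - 1)) * W' r := by
    have hm1 : Measurable fun r : ℝ => ENNReal.ofReal (r ^ (α - 2)) * ∫⁻ s in Ioo 0 r, W s :=
      (measurable_id.pow_const _).ennreal_ofReal.mul hG1
    rw [← lintegral_add_left hm1]
    refine (setLIntegral_le_lintegral _ _).trans ?_
    rw [← lintegral_indicator measurableSet_Ioo]
    refine lintegral_mono fun r => ?_
    by_cases hr : r ∈ Ioo (0 : ℝ) 1
    · rw [indicator_of_mem hr, hF, indicator_of_mem hr, hG]
      simp only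
      have h18 : ENNReal.ofReal r * ENNReal.ofReal (r ^ (α - 3)) = ENNReal.ofReal (r ^ (α - 2)) := by
        rw [← ENNReal.ofReal_mul hr.1.le]
        congr 1
        rw [← Real.rpow_one_add' hr.1.le (by linarith)]
        congr 1
        ring
      have h19 : ENNReal.ofReal (r ^ (α - 2)) * ENNReal.ofReal r = ENNReal.ofReal (r ^ (α - 1)) := by
        rw [← ENNReal.ofReal_mul (Real.rpow_nonneg hr.1.le _)]
        congr 1
        rw [mul_comm, ← Real.rpow_one_add' hr.1.le (by linarith)]
        congr 1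
        ring
      rw [← mul_assoc, h18, mul_add, ← mul_assoc, h19]
    · rw [indicator_of_notMem hr, hF, indicator_of_notMem hr, mul_zero]
  -- Tonelli
  set L : ℝ → ℝ → ℝ≥0∞ := fun r s =>
    if 0 < s ∧ s < r ∧ r < 1 then ENNReal.ofReal (r ^ (α - 2)) * W s else 0 with hL
  have hLm : Measurable (Function.uncurry L) := by
    have hset : MeasurableSet {p : ℝ × ℝ | 0 < p.2 ∧ p.2 < p.1 ∧ p.1 < 1} :=
      (measurableSet_lt measurable_const measurable_snd).inter
        ((measurableSet_lt measurable_snd measurable_fst).inter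
          (measurableSet_lt measurable_fst measurable_const))
    have h : Function.uncurry L = fun p : ℝ × ℝ =>
        if p ∈ {p : ℝ × ℝ | 0 < p.2 ∧ p.2 < p.1 ∧ p.1 < 1} then
          ENNReal.ofReal (p.1 ^ (α - 2)) * W p.2 else 0 := by
      funext p
      rfl
    rw [h]
    exact Measurable.ite hset
      ((measurable_fst.pow_const _).ennreal_ofReal.mul (hW.comp measurable_snd)) measurable_const
  have step4 : ∫⁻ r in Ioo (0 : ℝ) 1, ENNReal.ofReal (r ^ (α - 2)) * ∫⁻ s in Ioo 0 r, W s ≤
      ENNReal.ofReal (1 / (1 - α)) * ∫⁻ s in Ioo (0 : ℝ) 1, ENNReal.ofReal (s ^ (α - 1)) * W s := by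
    calc ∫⁻ r in Ioo (0 : ℝ) 1, ENNReal.ofReal (r ^ (α - 2)) * ∫⁻ s in Ioo 0 r, W s
        ≤ ∫⁻ r, ∫⁻ s, L r s := by
          rw [← lintegral_indicator measurableSet_Ioo]
          refine lintegral_mono fun r => ?_
          by_cases hr : r ∈ Ioo (0 : ℝ) 1
          · rw [indicator_of_mem hr, ← lintegral_const_mul' _ _ ENNReal.ofReal_ne_top,
              ← lintegral_indicator measurableSet_Ioo]
            refine lintegral_mono fun s => ?_
            by_cases hs : s ∈ Ioo 0 r
            · rw [indicator_of_mem hs]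
              simp only [hL]
              rw [if_pos ⟨hs.1, hs.2, hr.2⟩]
            · rw [indicator_of_notMem hs]
              exact zero_le
          · rw [indicator_of_notMem hr]
            exact zero_le
      _ = ∫⁻ s, ∫⁻ r, L r s := lintegral_lintegral_swap hLm.aemeasurable
      _ ≤ ∫⁻ s, (Ioo (0 : ℝ) 1).indicator (fun s =>
            ENNReal.ofReal (1 / (1 - α)) * (ENNReal.ofReal (s ^ (α - 1)) * W s)) s := by
          refine lintegral_mono fun s => ?_
          by_cases hs : s ∈ Ioo (0 : ℝ) 1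
          · rw [indicator_of_mem hs]
            calc ∫⁻ r, L r s ≤ ∫⁻ r, (Ioi s).indicator
                  (fun r => ENNReal.ofReal (r ^ (α - 2)) * W s) r := by
                  refine lintegral_mono fun r => ?_
                  by_cases hr : 0 < s ∧ s < r ∧ r < 1
                  · rw [indicator_of_mem (show r ∈ Ioi s from hr.2.1)]
                    simp only [hL]
                    rw [if_pos hr]
                  · simp only [hL]
                    rw [if_neg hr]
                    exact zero_le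
              _ = (∫⁻ r in Ioi s, ENNReal.ofReal (r ^ (α - 2))) * W s := by
                  have hm2 : Measurable fun r : ℝ => ENNReal.ofReal (r ^ (α - 2)) :=
                    (measurable_id.pow_const _).ennreal_ofReal
                  rw [lintegral_indicator measurableSet_Ioi, lintegral_mul_const _ hm2]
              _ = _ := by
                  rw [lintegral_tail hα1 hs.1, mul_assoc]
          · rw [indicator_of_notMem hs]
            have h20 : ∀ r, L r s = 0 := by
              intro r
              refine if_neg ?_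
              rintro ⟨h21, h22, h23⟩
              exact hs ⟨h21, h22.trans h23⟩
            simp [h20]
      _ = _ := by
          rw [lintegral_indicator measurableSet_Ioo, lintegral_const_mul' _ _ ENNReal.ofReal_ne_top]
  rw [step1]
  refine step2.trans_lt ?_
  rw [lintegral_radial F hFm]
  refine ENNReal.mul_lt_top (step3.trans_lt (ENNReal.add_lt_top.2 ⟨step4.trans_lt ?_, hI'⟩))
    ENNReal.ofReal_lt_top
  exact ENNReal.mul_lt_top ENNReal.ofReal_lt_top hI

end Pool.Agent.U394.DB
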