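import Pool.Agent.U394.DB.DYAD

set_option autoImplicit false

open MeasureTheory Set
open scoped ENNReal NNReal ContDiff

namespace Pool.Agent.U394.DB

open Pool.Agent.U243.DB

/-- (SCALE) -/
theorem t_SCALE : S_DYAD → S_SCALE := by
  intro hDYAD α k F hF hα hk hI
  have hk0 : (0 : ℝ) < k := by exact_mod_cast hk
  set G : ℝ → ℝ≥0∞ := (Ioc (0 : ℝ) 1).indicator fun s => ENNReal.ofReal (s ^ (α - 1)) * F s with hG
  have hGm : Measurable G :=
    ((measurable_id.pow_const _).ennreal_ofReal.mul hF).indicator measurableSet_Ioc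
  have hGI : ∫⁻ s, G s < ⊤ := by
    rw [hG, lintegral_indicator measurableSet_Ioc, ← setLIntegral_congr Ioo_ae_eq_Ioc]
    exact hI
  -- each sum is almost everywhere finite
  have hae : ∀ j ∈ Finset.range k, ∀ᵐ t ∂(volume.restrict (Ioc ((1 / k : ℝ) / 2) (1 / k))),
      ∑' m : ℕ, ENNReal.ofReal ((1 / 2 : ℝ) ^ m) * G ((t * (1 / 2 : ℝ) ^ m) * (j + 1)) < ⊤ := by
    intro j hj
    have hj1 : (0 : ℝ) < j + 1 := by positivity
    have hHm : Measurable fun u : ℝ => G (u * (j + 1)) := hGm.comp (measurable_mul_const _)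
    refine ae_lt_top ?_ ?_
    · refine Measurable.tsum fun m => ?_
      exact (hHm.comp (measurable_mul_const ((1 / 2 : ℝ) ^ m))).const_mul _
    · rw [hDYAD (fun u => G (u * (j + 1))) (1 / k) hHm (by positivity)]
      refine ne_top_of_le_ne_top (b := (ENNReal.ofReal ((j : ℝ) + 1))⁻¹ * ∫⁻ s, G s) ?_ ?_
      · refine (ENNReal.mul_lt_top ?_ hGI).ne
        rw [ENNReal.inv_lt_top]
        exact ENNReal.ofReal_pos.2 hj1
      · have h1 := lintegral_scale hGm (a := 0) (b := 1 / k) hj1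
        rw [lintegral_const_mul' _ _ ENNReal.ofReal_ne_top] at h1
        have h2 : ENNReal.ofReal ((j : ℝ) + 1) * ∫⁻ u in Ioc (0 : ℝ) (1 / k), G (u * (j + 1)) ≤
            ∫⁻ s, G s := by
          rw [h1]
          exact setLIntegral_le_lintegral _ _
        have h3 : ENNReal.ofReal ((j : ℝ) + 1) ≠ 0 := (ENNReal.ofReal_pos.2 hj1).ne'
        calc ∫⁻ u in Ioc (0 : ℝ) (1 / k), G (u * (j + 1))
            = (ENNReal.ofReal ((j : ℝ) + 1))⁻¹ *
              (ENNReal.ofReal ((j : ℝ) + 1) * ∫⁻ u in Ioc (0 : ℝ) (1 / k), G (u * (j + 1))) := by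
              rw [← mul_assoc, ENNReal.inv_mul_cancel h3 ENNReal.ofReal_ne_top, one_mul]
          _ ≤ _ := by gcongr
  have hall := (Filter.eventually_all_finset (Finset.range k)).2 hae
  have hne : volume.restrict (Ioc ((1 / k : ℝ) / 2) (1 / k)) ≠ 0 := by
    rw [Ne, Measure.restrict_eq_zero, Real.volume_Ioc]
    have : 0 < (1 / k : ℝ) - (1 / k : ℝ) / 2 := by
      have : (0 : ℝ) < 1 / k := by positivity
      linarith
    exact (ENNReal.ofReal_pos.2 this).ne'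
  have : (ae (volume.restrict (Ioc ((1 / k : ℝ) / 2) (1 / k)))).NeBot := ae_neBot.2 hne
  obtain ⟨t, ht, ht2⟩ := (hall.and (ae_restrict_mem measurableSet_Ioc)).exists
  have ht0 : 0 < t := lt_of_le_of_lt (by positivity) ht2.1
  have htk : t * k ≤ 1 := by
    have := ht2.2
    rwa [le_div_iff₀ hk0] at this
  refine ⟨t, ht0, htk, fun j hj => ?_⟩
  have hj1 : (0 : ℝ) < j + 1 := by positivity
  have hjk : ((j : ℝ) + 1) ≤ k := by
    exact_mod_cast Finset.mem_range.1 hj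
  have h4 := ht j hj
  have hjt : 0 < ((j : ℝ) + 1) * t := by positivity
  have h5 : ∀ m : ℕ, ENNReal.ofReal ((1 / 2 : ℝ) ^ m) * G ((t * (1 / 2 : ℝ) ^ m) * (j + 1)) =
      ENNReal.ofReal ((((j : ℝ) + 1) * t) ^ (α - 1)) *
        (ENNReal.ofReal (((1 / 2 : ℝ) ^ m) ^ α) * F ((j + 1) * (t * (1 / 2 : ℝ) ^ m))) := by
    intro m
    have hp : (0 : ℝ) < (1 / 2) ^ m := by positivity
    have hmem : (t * (1 / 2 : ℝ) ^ m) * (j + 1) ∈ Ioc (0 : ℝ) 1 := by
      refine ⟨by positivity, ?_⟩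
      calc (t * (1 / 2 : ℝ) ^ m) * (j + 1) ≤ (t * 1) * k := by
            gcongr
            exact pow_le_one₀ (by norm_num) (by norm_num)
        _ ≤ 1 := by rw [mul_one]; exact htk
    rw [hG, indicator_of_mem hmem]
    have h6 : (t * (1 / 2 : ℝ) ^ m) * (j + 1) = (j + 1) * (t * (1 / 2 : ℝ) ^ m) := by ring
    rw [h6]
    have h8 : ENNReal.ofReal ((1 / 2 : ℝ) ^ m) *
        ENNReal.ofReal ((((j : ℝ) + 1) * (t * (1 / 2 : ℝ) ^ m)) ^ (α - 1)) =
        ENNReal.ofReal ((((j : ℝ) + 1) * t) ^ (α - 1)) * ENNReal.ofReal (((1 / 2 : ℝ) ^ m) ^ α) := by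
      rw [← ENNReal.ofReal_mul hp.le, ← ENNReal.ofReal_mul (Real.rpow_nonneg hjt.le _)]
      congr 1
      rw [← mul_assoc ((j : ℝ) + 1) t, Real.mul_rpow hjt.le hp.le]
      have h7 : ((1 / 2 : ℝ) ^ m) ^ α = (1 / 2 : ℝ) ^ m * ((1 / 2 : ℝ) ^ m) ^ (α - 1) := by
        rw [← Real.rpow_one_add' hp.le (by linarith)]
        congr 1
        ring
      rw [h7]
      ring
    calc ENNReal.ofReal ((1 / 2 : ℝ) ^ m) *
          (ENNReal.ofReal ((((j : ℝ) + 1) * (t * (1 / 2 : ℝ) ^ m)) ^ (α - 1)) *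
            F (((j : ℝ) + 1) * (t * (1 / 2 : ℝ) ^ m)))
        = (ENNReal.ofReal ((1 / 2 : ℝ) ^ m) *
          ENNReal.ofReal ((((j : ℝ) + 1) * (t * (1 / 2 : ℝ) ^ m)) ^ (α - 1))) *
            F (((j : ℝ) + 1) * (t * (1 / 2 : ℝ) ^ m)) := by rw [mul_assoc]
      _ = _ := by rw [h8, mul_assoc]
  rw [tsum_congr h5, ENNReal.tsum_mul_left] at h4
  have h8 : ENNReal.ofReal ((((j : ℝ) + 1) * t) ^ (α - 1)) ≠ 0 :=
    (ENNReal.ofReal_pos.2 (Real.rpow_pos_of_pos hjt _)).ne'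
  by_contra h9
  rw [not_lt, top_le_iff] at h9
  rw [h9, ENNReal.mul_top h8] at h4
  exact lt_irrefl _ h4

end Pool.Agent.U394.DB
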