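import Pool.Agent.U243.DB.Stm

set_option autoImplicit false

open MeasureTheory Set
open scoped ENNReal NNReal ContDiff

namespace Pool.Agent.U394.DB

open Pool.Agent.U243.DB

lemma geo_inj (S : Finset ℕ) (g : ℕ → ℕ) (hg : Set.InjOn g S) {ρ : ℝ} (h0 : 0 ≤ ρ) (h1 : ρ < 1) :
    ∑ n ∈ S, ρ ^ (g n) ≤ (1 - ρ)⁻¹ := by
  rw [← tsum_geometric_of_lt_one h0 h1, ← Finset.sum_image (f := fun j => ρ ^ j) hg]
  exact (summable_geometric_of_lt_one h0 h1).sum_le_tsum _ fun j _ => pow_nonneg h0 j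

/-- (SUM) -/
theorem t_SUM : S_SUM := by
  intro α k hα hαk
  have hk : (0 : ℝ) < k := hα.trans hαk
  set ρ₁ : ℝ := (2 : ℝ) ^ (-((k : ℝ) - α)) with hρ₁
  set ρ₂ : ℝ := (2 : ℝ) ^ (-α) with hρ₂
  have h10 : 0 ≤ ρ₁ := Real.rpow_nonneg (by norm_num) _
  have h11 : ρ₁ < 1 := Real.rpow_lt_one_of_one_lt_of_neg (by norm_num) (by linarith)
  have h20 : 0 ≤ ρ₂ := Real.rpow_nonneg (by norm_num) _
  have h21 : ρ₂ < 1 := Real.rpow_lt_one_of_one_lt_of_neg (by norm_num) (by linarith)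
  have hi1 : 0 ≤ (1 - ρ₁)⁻¹ := inv_nonneg.2 (by linarith)
  have hi2 : 0 ≤ (1 - ρ₂)⁻¹ := inv_nonneg.2 (by linarith)
  refine ⟨2 ^ (k : ℕ) * (1 - ρ₁)⁻¹ + (1 - ρ₂)⁻¹, by positivity, ?_⟩
  intro x t N hx ht ht1
  obtain ⟨m, hm1, hm2⟩ := exists_mem_Ioc_zpow hx (one_lt_two : (1 : ℝ) < 2)
  -- each term
  have hterm : ∀ n : ℕ, ((1 / 2 : ℝ) ^ n) ^ α * min 1 ((x / (t * (1 / 2 : ℝ) ^ n)) ^ k) ≤
      x ^ α * (if m + n + 1 ≤ 0 then 2 ^ k * ρ₁ ^ (-(m + n + 1)).toNat
        else ρ₂ ^ (m + n).toNat) := by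
    intro n
    have hp : (0 : ℝ) < (1 / 2) ^ n := by positivity
    set y : ℝ := x * 2 ^ n with hy
    have hy0 : 0 < y := by positivity
    have hxy : (1 / 2 : ℝ) ^ n = x * y⁻¹ := by
      rw [hy]
      field_simp
      rw [← mul_pow]
      norm_num
    have hyα : ((1 / 2 : ℝ) ^ n) ^ α = x ^ α * y ^ (-α) := by
      rw [hxy, Real.mul_rpow hx.le (inv_nonneg.2 hy0.le), Real.inv_rpow hy0.le, Real.rpow_neg hy0.le]
    have hylow : (2 : ℝ) ^ (m + n) < y := by
      rw [zpow_add₀ (by norm_num), zpow_natCast, hy]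
      exact mul_lt_mul_of_pos_right hm1 (by positivity)
    have hyup : y ≤ (2 : ℝ) ^ (m + n + 1) := by
      rw [show m + n + 1 = (m + 1) + n by ring, zpow_add₀ (by norm_num : (2 : ℝ) ≠ 0), zpow_natCast, hy]
      exact mul_le_mul_of_nonneg_right hm2 (by positivity)
    rw [hyα, mul_assoc]
    refine mul_le_mul_of_nonneg_left ?_ (Real.rpow_nonneg hx.le _)
    split_ifs with hc
    · -- small
      have h3 : x / (t * (1 / 2 : ℝ) ^ n) ≤ 2 * y := by
        rw [div_le_iff₀ (by positivity)]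
        have h4 : (1 / 2 : ℝ) ^ n * 2 ^ n = 1 := by
          rw [← mul_pow]; norm_num
        calc x = (2 * (1 / 2)) * x * ((1 / 2 : ℝ) ^ n * 2 ^ n) := by rw [h4]; ring
          _ ≤ (2 * t) * x * ((1 / 2 : ℝ) ^ n * 2 ^ n) := by gcongr
          _ = 2 * y * (t * (1 / 2) ^ n) := by rw [hy]; ring
      have h5 : y ^ ((k : ℝ) - α) ≤ ρ₁ ^ (-(m + n + 1)).toNat := by
        have h6 : y ^ ((k : ℝ) - α) ≤ ((2 : ℝ) ^ (m + n + 1)) ^ ((k : ℝ) - α) :=
          Real.rpow_le_rpow hy0.le hyup (by linarith)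
        refine h6.trans (le_of_eq ?_)
        rw [hρ₁, ← Real.rpow_natCast, ← Real.rpow_mul (by norm_num : (0 : ℝ) ≤ 2),
          ← Real.rpow_intCast, ← Real.rpow_mul (by norm_num : (0 : ℝ) ≤ 2)]
        congr 1
        have h7 : (((-(m + n + 1)).toNat : ℕ) : ℝ) = ((-(m + n + 1) : ℤ) : ℝ) := by
          rw [← Int.cast_natCast, Int.toNat_of_nonneg (by omega)]
        rw [h7]
        push_cast
        ring
      calc y ^ (-α) * min 1 ((x / (t * (1 / 2 : ℝ) ^ n)) ^ k)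
          ≤ y ^ (-α) * (2 * y) ^ k := by
            refine mul_le_mul_of_nonneg_left ((min_le_right _ _).trans ?_)
              (Real.rpow_nonneg hy0.le _)
            exact pow_le_pow_left₀ (by positivity) h3 k
        _ = 2 ^ k * y ^ ((k : ℝ) - α) := by
            rw [mul_pow, sub_eq_add_neg, Real.rpow_add hy0, Real.rpow_natCast]
            ring
        _ ≤ 2 ^ k * ρ₁ ^ (-(m + n + 1)).toNat := by gcongr
    · -- large
      calc y ^ (-α) * min 1 ((x / (t * (1 / 2 : ℝ) ^ n)) ^ k)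
          ≤ y ^ (-α) * 1 :=
            mul_le_mul_of_nonneg_left (min_le_left _ _) (Real.rpow_nonneg hy0.le _)
        _ = y ^ (-α) := mul_one _
        _ ≤ ((2 : ℝ) ^ (m + n)) ^ (-α) :=
            Real.rpow_le_rpow_of_nonpos (by positivity) hylow.le (by linarith)
        _ = ρ₂ ^ (m + n).toNat := by
            rw [hρ₂, ← Real.rpow_natCast, ← Real.rpow_mul (by norm_num : (0 : ℝ) ≤ 2),
              ← Real.rpow_intCast, ← Real.rpow_mul (by norm_num : (0 : ℝ) ≤ 2)]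
            congr 1
            have h7 : (((m + n).toNat : ℕ) : ℝ) = ((m + n : ℤ) : ℝ) := by
              rw [← Int.cast_natCast, Int.toNat_of_nonneg (by omega)]
            rw [h7]
            push_cast
            ring
  calc ∑ n ∈ Finset.range N, ((1 / 2 : ℝ) ^ n) ^ α * min 1 ((x / (t * (1 / 2 : ℝ) ^ n)) ^ k)
      ≤ ∑ n ∈ Finset.range N, x ^ α * (if m + n + 1 ≤ 0 then 2 ^ k * ρ₁ ^ (-(m + n + 1)).toNat
        else ρ₂ ^ (m + n).toNat) := Finset.sum_le_sum fun n _ => hterm n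
    _ = x ^ α * (2 ^ k * (∑ n ∈ (Finset.range N).filter (fun n : ℕ => m + n + 1 ≤ 0),
          ρ₁ ^ (-(m + n + 1)).toNat) +
          ∑ n ∈ (Finset.range N).filter (fun n : ℕ => ¬ (m + n + 1 ≤ 0)), ρ₂ ^ (m + n).toNat) := by
        rw [← Finset.mul_sum, Finset.sum_ite, Finset.mul_sum]
    _ ≤ x ^ α * (2 ^ k * (1 - ρ₁)⁻¹ + (1 - ρ₂)⁻¹) := by
        refine mul_le_mul_of_nonneg_left (add_le_add (mul_le_mul_of_nonneg_left ?_ (by positivity)) ?_)
          (Real.rpow_nonneg hx.le _)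
        · refine geo_inj _ (fun n : ℕ => (-(m + n + 1)).toNat) ?_ h10 h11
          intro a ha b hb hab
          simp only [Finset.coe_filter, mem_ofPred_eq] at ha hb
          simp only at hab
          omega
        · refine geo_inj _ (fun n : ℕ => (m + n).toNat) ?_ h20 h21
          intro a ha b hb hab
          simp only [Finset.coe_filter, mem_ofPred_eq] at ha hb
          simp only at hab
          omega
    _ = _ := by ring

end Pool.Agent.U394.DB
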